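import Mathlib
import Pool.Agent.H27.QRBranch

namespace Pool.Agent.Results.MP_00e59b_an.BigImage

open Pool.Agent.H27.NagQ Pool.Agent.H27.QRDef Pool.Agent.H27.QRBranch

theorem result (n : ℕ) (hn : 3 ≤ n) : ∃ (Ω : Set (En n)) (f : En n → En n),
    IsOpen Ω ∧ IsConnected Ω ∧ IsQR Ω f ∧ (∃ x ∈ Ω, ∃ y ∈ Ω, f x ≠ f y) ∧
    ((n - 1 : ℕ) : ℕ∞) ≤ dimN (f '' branch Ω f) := by
  obtain ⟨m, rfl⟩ : ∃ m, n = m + 3 := ⟨n - 3, by omega⟩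
  exact ⟨Om m, ff, Om_open, Om_conn, ff_qr, nonconst, main m⟩

end Pool.Agent.Results.MP_00e59b_an.BigImage
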